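import Pool.Graph.R_seed8.TH611.M5.S9

/-!
# Very general sequences of points of an irreducible affine variety over `ℂ`
-/

set_option autoImplicit false

namespace Pool.Agent.H418.SQ

open MvPolynomial

section

variable {σ ι : Type} [Finite σ] [Countable ι]

theorem eval_update (H : MvPolynomial (ℕ × σ) ℂ) (y : ℕ → σ → ℂ) (t : ℕ) (z : σ → ℂ) :
    eval z (aeval (fun p : ℕ × σ =>
      if p.1 = t then (X p.2 : MvPolynomial σ ℂ) else C (y p.1 p.2)) H) =
      eval (fun p => Function.update y t z p.1 p.2) H := by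
  have h5 : ((aeval z : MvPolynomial σ ℂ →ₐ[ℂ] ℂ).comp
      (aeval (fun p : ℕ × σ =>
        if p.1 = t then (X p.2 : MvPolynomial σ ℂ) else C (y p.1 p.2)))) =
      (aeval (fun p : ℕ × σ => Function.update y t z p.1 p.2) :
        MvPolynomial (ℕ × σ) ℂ →ₐ[ℂ] ℂ) := by
    refine algHom_ext fun p => ?_
    simp only [AlgHom.comp_apply, aeval_X]
    by_cases hp : p.1 = t
    · rw [if_pos hp, aeval_X, hp, Function.update_self]
    · rw [if_neg hp, Function.update_of_ne hp]
      exact aeval_C _ _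
  exact DFunLike.congr_fun h5 H

/-- the value of a polynomial depends only on the points which are involved -/
theorem eval_congr_bound (H : MvPolynomial (ℕ × σ) ℂ) :
    ∃ N : ℕ, ∀ y y' : ℕ → σ → ℂ, (∀ q < N, y q = y' q) →
      eval (fun p => y p.1 p.2) H = eval (fun p => y' p.1 p.2) H := by
  classical
  obtain ⟨N, hN⟩ : ∃ N : ℕ, ∀ p ∈ H.vars, p.1 < N := by
    refine ⟨H.vars.sup (fun p => p.1) + 1, fun p hp => ?_⟩
    have := Finset.le_sup (f := fun p : ℕ × σ => p.1) hp
    exact Nat.lt_succ_of_le this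
  refine ⟨N, fun y y' h => ?_⟩
  refine eval₂Hom_congr' rfl (fun p hp _ => ?_) rfl
  show y p.1 p.2 = y' p.1 p.2
  rw [h p.1 (hN p hp)]

theorem exists_sequence_countable (J : Ideal (MvPolynomial σ ℂ)) (hJ : J.IsPrime)
    (H : ι → MvPolynomial (ℕ × σ) ℂ)
    (hH : ∀ k, ∃ y0 : ℕ → σ → ℂ, (∀ q, ∀ g ∈ J, eval (y0 q) g = 0) ∧
      eval (fun p => y0 p.1 p.2) (H k) ≠ 0) :
    ∃ y : ℕ → σ → ℂ, (∀ q, ∀ g ∈ J, eval (y q) g = 0) ∧
      ∀ k, eval (fun p => y p.1 p.2) (H k) ≠ 0 := by
  classical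
  choose W0 hW0 hW0' using hH
  let S := {W : ι → ℕ → σ → ℂ // (∀ k q, ∀ g ∈ J, eval (W k q) g = 0) ∧
    ∀ k, eval (fun p => W k p.1 p.2) (H k) ≠ 0}
  have step : ∀ (W : S) (t : ℕ), ∃ z : σ → ℂ, (∀ g ∈ J, eval z g = 0) ∧
      ∀ k, eval (fun p => Function.update (W.1 k) t z p.1 p.2) (H k) ≠ 0 := by
    intro W t
    obtain ⟨z, hz1, hz3⟩ := Pool.Agent.TH611.M5.exists_point_countable J hJ
      (fun k => aeval (fun p : ℕ × σ =>
        if p.1 = t then (X p.2 : MvPolynomial σ ℂ) else C (W.1 k p.1 p.2)) (H k))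
      (fun k hk => by
        have h6 := W.2.1 k t _ hk
        rw [eval_update, Function.update_eq_self] at h6
        exact W.2.2 k h6)
    refine ⟨z, hz1, fun k => ?_⟩
    have := hz3 k
    rwa [eval_update] at this
  choose zf hzf hzf' using step
  let next : S → ℕ → S := fun W t => ⟨fun k => Function.update (W.1 k) t (zf W t), by
    refine ⟨fun k q g hg => ?_, fun k => hzf' W t k⟩
    show eval (Function.update (W.1 k) t (zf W t) q) g = 0
    by_cases h : q = t
    · subst h
      rw [Function.update_self]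
      exact hzf W q g hg
    · rw [Function.update_of_ne h]
      exact W.2.1 k q g hg⟩
  let Ws : ℕ → S := fun t => Nat.rec ⟨W0, hW0, hW0'⟩ (fun t W => next W t) t
  have hWs : ∀ t, Ws (t + 1) = next (Ws t) t := fun t => rfl
  let y : ℕ → σ → ℂ := fun t => zf (Ws t) t
  have hy : ∀ t q, q < t → ∀ k, (Ws t).1 k q = y q := by
    intro t
    induction t with
    | zero => intro q hq; omega
    | succ t ih =>
      intro q hq k
      rw [hWs]
      show Function.update ((Ws t).1 k) t (zf (Ws t) t) q = y q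
      by_cases h : q = t
      · subst h
        rw [Function.update_self]
      · rw [Function.update_of_ne h]
        exact ih q (by omega) k
  refine ⟨y, fun q g hg => hzf (Ws q) q g hg, fun k => ?_⟩
  obtain ⟨N, hN⟩ := eval_congr_bound (H k)
  rw [hN y ((Ws N).1 k) fun q hq => (hy N q hq k).symm]
  exact (Ws N).2.2 k

end

end Pool.Agent.H418.SQ
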